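import Pool.Agent.helper47.EIF.Spec

/-! Row eif:WNU of MP_f6e9a2_nt -/

set_option autoImplicit false

open Finset

namespace Pool.Agent.EIF

theorem WNU_one (p : ℕ) [Fact p.Prime] (c u : ZMod p) (hu : u ≠ 0) (g : ZMod p → ℝ) :
    ∑ x : ZMod p, (if c = u * x then g x else 0) = g (c / u) := by
  have h1 : ∀ x : ZMod p, (c = u * x) ↔ (x = c / u) := by
    intro x
    rw [eq_div_iff hu, mul_comm x u]
    exact eq_comm
  simp only [h1]
  rw [Finset.sum_ite_eq']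
  simp

theorem WNU_two (p : ℕ) [Fact p.Prime] (S : Finset (ZMod p)) (H : ℕ) (u : ZMod p) (hu : u ≠ 0)
    (g : ZMod p → ℝ) :
    ∑ x : ZMod p, ((((S ×ˢ range H).filter fun z => z.1 + (z.2 : ZMod p) = u * x).card : ℕ) : ℝ) * g x =
      ∑ t ∈ S, ∑ m ∈ range H, g ((t + (m : ZMod p)) / u) := by
  have h1 : ∀ x : ZMod p,
      ((((S ×ˢ range H).filter fun z => z.1 + (z.2 : ZMod p) = u * x).card : ℕ) : ℝ) * g x =
        ∑ z ∈ S ×ˢ range H, (if z.1 + (z.2 : ZMod p) = u * x then g x else 0) := by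
    intro x
    rw [← Finset.sum_filter, Finset.sum_const, nsmul_eq_mul]
  simp only [h1]
  rw [Finset.sum_comm, Finset.sum_product]
  refine Finset.sum_congr rfl ?_
  intro t _
  refine Finset.sum_congr rfl ?_
  intro m _
  exact WNU_one p _ u hu g

theorem WNU (hMAX : Pool.Agent.PJ.MAX_stmt) (hWSH : WSH_stmt) : WNU_stmt := by
  intro p _ χ k h U n S hk hU hN
  have hu0 : ∀ u ∈ Ioc U (2 * U), (u : ZMod p) ≠ 0 := by
    intro u hu h
    rw [mem_Ioc] at hu
    rw [ZMod.natCast_eq_zero_iff] at h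
    have := Nat.le_of_dvd (by omega) h
    omega
  have hL : (U : ℝ) * (2 : ℝ) ^ n * ∑ t ∈ S, Wc χ h t
      = ∑ u ∈ Ioc U (2 * U), ∑ t ∈ S, (2 : ℝ) ^ n * Wc χ h t := by
    rw [sum_const, Nat.card_Ioc, nsmul_eq_mul, ← mul_sum]
    have h1 : 2 * U - U = U := by omega
    rw [h1]
    ring
  have hR : ∑ x : ZMod p, (Pool.Agent.SPI.nu S (2 * h) U x : ℝ) * Pool.Agent.PJ.mj k n (c0 χ x)
      = ∑ u ∈ Ioc U (2 * U), ∑ t ∈ S, ∑ m ∈ range (2 * h),
        Pool.Agent.PJ.mj k n (c0 χ ((t + (m : ZMod p)) / (u : ZMod p))) := by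
    have h1 : ∀ x : ZMod p, (Pool.Agent.SPI.nu S (2 * h) U x : ℝ) * Pool.Agent.PJ.mj k n (c0 χ x)
        = ∑ u ∈ Ioc U (2 * U),
          ((((S ×ˢ range (2 * h)).filter fun z => z.1 + (z.2 : ZMod p) = (u : ZMod p) * x).card : ℕ) : ℝ) *
            Pool.Agent.PJ.mj k n (c0 χ x) := by
      intro x
      unfold Pool.Agent.SPI.nu
      push_cast
      rw [sum_mul]
    simp only [h1]
    rw [Finset.sum_comm]
    refine Finset.sum_congr rfl ?_
    intro u hu
    exact WNU_two p S (2 * h) (u : ZMod p) (hu0 u hu) (fun x => Pool.Agent.PJ.mj k n (c0 χ x))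
  rw [hL, hR]
  refine Finset.sum_le_sum ?_
  intro u hu
  have hu' := mem_Ioc.mp hu
  refine Finset.sum_le_sum ?_
  intro t _
  exact hWSH p χ k h n u t hk (by omega) (by omega) ((Nat.mul_le_mul_left _ hu'.2).trans hN)

end Pool.Agent.EIF
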